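import Pool.Agent.Helper21.QA.Bar
import Pool.Graph.R_seed8.Y290.KW.C

/-!
# The displacement is additive up to `2 N² + 4 N`
-/

namespace Pool.Agent.Helper21.QA

open Y994.KW Pool.Agent.Y290.KW

theorem key {n : ℕ} {a s b : ℤ} {σ : Cfg} {I K : ℕ} {X Y p q : ℤ} (hn : 1 ≤ n) (hp : Per n σ)
    (has : a ≤ s) (hsb : s < b) (hs : Hit n a s σ I Y) (hK : Hit n a b σ K X)
    (hT : Thr σ s b p q) (h1 : 2 * n + Y ≤ p) (h2 : p < 2 * n + Y + (2 * n + 1)) :
    |X - Y - (q - p)| ≤ (2 * n + 1) ^ 2 + 2 * (2 * n + 1) := by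
  have hab : a < b := by omega
  have hN : (0 : ℤ) < 2 * n + 1 := by positivity
  obtain ⟨d, hd⟩ : ∃ d, d = (2 * n + X - q) / (2 * n + 1) := ⟨_, rfl⟩
  have hd1 : q + (2 * n + 1) * d ≤ 2 * n + X := by
    have h3 := Int.emod_add_mul_ediv (2 * n + X - q) (2 * n + 1)
    have h4 := Int.emod_nonneg (2 * n + X - q) hN.ne'
    rw [← hd] at h3
    omega
  have hd2 : 2 * n + X < q + (2 * n + 1) * (d + 1) := by
    have h3 := Int.emod_add_mul_ediv (2 * n + X - q) (2 * n + 1)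
    have h4 := Int.emod_lt_of_pos (2 * n + X - q) hN
    rw [← hd] at h3
    have : (2 * (n : ℤ) + 1) * (d + 1) = (2 * n + 1) * d + (2 * n + 1) := by ring
    omega
  obtain ⟨m, hm0, hm1, hm2⟩ := hT
  obtain ⟨Z1, hZ1, hZ1'⟩ := bd (fun i => (orb n a σ i).1.1) K
  obtain ⟨Z2, hZ2, hZ2'⟩ := bd (fun i => ((nxt σ)^[i] (up p s)).1.1) m
  obtain ⟨W, hW⟩ : ∃ W : ℕ, (W : ℤ) = Z1 + Z2 + |d| + 5 :=
    ⟨(Z1 + Z2 + |d| + 5).toNat, by have := abs_nonneg d; omega⟩
  have hNW : ∀ k : ℤ, |k| ≤ |d| + 1 → Z1 + Z2 + 4 + |(2 * n + 1) * k| ≤ (2 * n + 1) * W := by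
    intro k hk
    rw [hW, abs_mul, abs_of_pos hN]
    have : (2 * (n : ℤ) + 1) * |k| ≤ (2 * n + 1) * (|d| + 1) := mul_le_mul_of_nonneg_left hk hN.le
    nlinarith [abs_nonneg d]
  have hkW : ∀ k : ℤ, |k| ≤ |d| + 1 → -(W : ℤ) ≤ k ∧ k + 1 ≤ W := by
    intro k hk
    have := abs_le.1 hk
    constructor <;> omega
  have hZ : ∀ i ≤ K, -Z1 ≤ (orb n a σ i).1.1 ∧ (orb n a σ i).1.1 ≤ Z1 := fun i hi =>
    abs_le.1 (hZ1' i hi)
  have hz0 := hNW 0 (by rw [abs_zero]; have := abs_nonneg d; omega)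
  rw [mul_zero, abs_zero] at hz0
  obtain ⟨H, h⟩ := exists_HF hab hK W (fun i hi => by have := hZ i hi; omega)
  have hIK : I ≤ K := hit_le has hsb.le hs hK
  -- the translates of the interface
  have M1 : ∀ k : ℤ, |k| ≤ |d| + 1 → H (2 * n + Y + (2 * n + 1) * k, s) = if k ≤ 0 then 0 else 1 := by
    intro k hk
    have e1 := hNW k hk
    have e2 := hkW k hk
    have e3 := abs_le.1 (le_refl |(2 * (n : ℤ) + 1) * k|)
    have e4 := h.tr hn hp hab hK k hIK (fun i hi => by have := hZ i (by omega); constructor <;> omega)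
      I le_rfl
    rw [hs.1, orb_zero] at e4
    simp only [up, Prod.mk_add_mk, add_zero] at e4
    rw [e4]
    obtain ⟨j, hj⟩ : ∃ j : ℕ, (j : ℤ) = k + W := ⟨(k + W).toNat, by omega⟩
    have e5 := h.bot hn hp hab hK j (by omega) n le_rfl
    rw [hj, add_sub_cancel_right] at e5
    exact e5
  -- the translates of the strand
  have hXb : -((2 * n + 1) * (W : ℤ)) ≤ 2 * n + X := by
    have := hZ K le_rfl
    rw [hK.1] at this
    simp only [up] at this
    omega
  have M2 : ∀ k : ℤ, |k| ≤ |d| + 1 → H (p + (2 * n + 1) * k, s) = if k ≤ d then 0 else 1 := by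
    intro k hk
    have e1 := hNW k hk
    have e3 := abs_le.1 (le_refl |(2 * (n : ℤ) + 1) * k|)
    have et : ∀ i, (nxt σ)^[i] (up (p + (2 * n + 1) * k) s) =
        sh ((2 * n + 1) * k) ((nxt σ)^[i] (up p s)) := by
      intro i
      rw [← sh_up, it_sh hp k (Kd.up p s)]
    have hx : ∀ i ≤ m, -Z2 ≤ ((nxt σ)^[i] (up p s)).1.1 ∧ ((nxt σ)^[i] (up p s)).1.1 ≤ Z2 :=
      fun i hi => abs_le.1 (hZ2' i hi)
    have hlev : ∀ i ≤ m, 2 * s ≤ lv ((nxt σ)^[i] (up p s)) ∧ lv ((nxt σ)^[i] (up p s)) ≤ 2 * b := by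
      intro i hi
      rcases Nat.eq_zero_or_pos i with h0 | h0
      · subst h0
        rw [Function.iterate_zero, id, lv_up]
        omega
      · rcases hi.lt_or_eq with h5 | h5
        · have h6 := hm2 i h0 h5
          unfold Inn at h6
          unfold lv
          omega
        · rw [h5, hm1, lv_up]
          omega
    have e4 := h.left (T := fun i => (nxt σ)^[i] (up (p + (2 * n + 1) * k) s)) (m := m)
      (fun i _ => kd_it σ (Kd.up _ _) i) (fun i _ => Function.iterate_succ_apply' _ _ _)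
      (fun i hi => by
        have f1 := hx i hi
        obtain ⟨f2, f3⟩ := hlev i hi
        obtain ⟨f4, f5, -, -⟩ := ok_bd (kd_it σ (Kd.up p s) i) f2 f3
        simp only [et, sh]
        refine ⟨?_, ?_, ?_, ?_⟩ <;> omega) m le_rfl
    simp only [Function.iterate_zero, id] at e4
    rw [et, hm1, sh_up] at e4
    change H (q + (2 * n + 1) * k, b) = H (p + (2 * n + 1) * k, s) at e4
    rw [← e4]
    have hqz : -Z2 ≤ q ∧ q ≤ Z2 := by
      have := hx m le_rfl
      rw [hm1] at this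
      exact this
    rw [h.top hab.le hK hXb (by omega) (by omega)]
    by_cases hkd : k ≤ d
    · rw [if_pos hkd, if_pos]
      have : (2 * (n : ℤ) + 1) * k ≤ (2 * n + 1) * d := mul_le_mul_of_nonneg_left hkd hN.le
      omega
    · rw [if_neg hkd, if_neg]
      have : (2 * (n : ℤ) + 1) * (d + 1) ≤ (2 * n + 1) * k :=
        mul_le_mul_of_nonneg_left (by omega) hN.le
      omega
  -- visited edges
  have hp0 : -Z2 ≤ p ∧ p ≤ Z2 := abs_le.1 (hZ2' 0 (Nat.zero_le m))
  have hY0 : -Z1 ≤ 2 * n + Y ∧ 2 * n + Y ≤ Z1 := by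
    have := hZ I hIK
    rw [hs.1] at this
    exact this
  have M3 : ∀ k : ℤ, |k| ≤ |d| + 1 → (k ≤ 0 ↔ d < k) →
      ∃ e, 2 * n + Y + (2 * n + 1) * k ≤ e ∧ e < 2 * n + Y + (2 * n + 1) * (k + 1) ∧
        ∃ i, orb n a σ i = up e s ∨ orb n a σ i = dn e s := by
    intro k hk hiff
    have e1 := hNW k hk
    have e3 := abs_le.1 (le_refl |(2 * (n : ℤ) + 1) * k|)
    obtain ⟨e, g1, g2, g3⟩ := h.vis (x := 2 * n + Y + (2 * n + 1) * k) (y := p + (2 * n + 1) * k)
      (t := s) has hsb.le (by omega) (by omega) (by omega) (by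
        rw [M1 k hk, M2 k hk]
        split_ifs <;> omega)
    refine ⟨e, g1, ?_, g3⟩
    have : (2 * (n : ℤ) + 1) * (k + 1) = (2 * n + 1) * k + (2 * n + 1) := by ring
    omega
  have hdN : |d| ≤ 2 * n + 1 := by
    rcases le_or_gt 0 d with h0 | h0
    · rw [abs_of_nonneg h0]
      have h3 := pig (L := d.toNat) hn hp (t := s) (f := 2 * n + Y) (k0 := 1) (a := a) (σ := σ) (by
        intro j hj
        have hj' : (j : ℤ) < d := by omega
        exact M3 (1 + j) (by rw [abs_of_nonneg (by omega), abs_of_nonneg h0]; omega)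
          (by constructor <;> intro <;> omega))
      omega
    · rw [abs_of_neg h0]
      have h3 := pig (L := (-d).toNat) hn hp (t := s) (f := 2 * n + Y) (k0 := d + 1) (a := a)
        (σ := σ) (by
        intro j hj
        have hj' : (j : ℤ) < -d := by omega
        exact M3 (d + 1 + j) (by rw [abs_of_nonpos (by omega), abs_of_neg h0]; omega)
          (by constructor <;> intro <;> omega))
      omega
  have hdd := abs_le.1 hdN
  have e1 : -((2 * (n : ℤ) + 1) * (2 * n + 1)) ≤ (2 * n + 1) * d := by nlinarith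
  have e2 : (2 * (n : ℤ) + 1) * d ≤ (2 * n + 1) * (2 * n + 1) := by nlinarith
  have e3 : (2 * (n : ℤ) + 1) * (d + 1) = (2 * n + 1) * d + (2 * n + 1) := by ring
  rw [abs_le]
  constructor <;> nlinarith

/-- **the displacement is almost additive**, for every configuration -/
theorem quasi {n : ℕ} {a s b : ℤ} {σ : Cfg} (hn : 1 ≤ n) (hp : Per n σ) (has : a ≤ s)
    (hsb : s ≤ b) : |dsp n a b σ - dsp n a s σ - dsp n s b σ| ≤
      2 * (2 * n + 1) ^ 2 + 4 * (2 * n + 1) := by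
  have hH := Pool.Agent.Y932.KW.t_HIT
  have h0 : ∀ t, Hit n t t σ 0 0 := by
    intro t
    refine ⟨?_, fun k hk => absurd hk (Nat.not_lt_zero k)⟩
    rw [orb_zero, add_zero]
  rcases hsb.eq_or_lt with h | h
  · obtain ⟨i, hi⟩ := hH n b b σ hn hp le_rfl
    rw [h, hit_unique hi (h0 b), sub_self, sub_zero, abs_zero]
    positivity
  · obtain ⟨I, hI⟩ := hH n a s σ hn hp has
    obtain ⟨K, hK⟩ := hH n a b σ hn hp (by omega)
    obtain ⟨L, hL⟩ := hH n s b σ hn hp hsb
    obtain ⟨p, q, hT⟩ := Y994.KW.Ext141.exists_thr hp h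
    have hN : (0 : ℤ) < 2 * n + 1 := by positivity
    have hsh : ∀ f : ℤ, ∃ z : ℤ, f ≤ p + (2 * n + 1) * z ∧ p + (2 * n + 1) * z < f + (2 * n + 1) := by
      intro f
      refine ⟨-((p - f) / (2 * n + 1)), ?_⟩
      have h3 := Int.emod_add_mul_ediv (p - f) (2 * n + 1)
      have h4 := Int.emod_nonneg (p - f) hN.ne'
      have h5 := Int.emod_lt_of_pos (p - f) hN
      rw [mul_neg]
      constructor <;> omega
    obtain ⟨z, hz1, hz2⟩ := hsh (2 * n + dsp n a s σ)
    obtain ⟨w, hw1, hw2⟩ := hsh (2 * n + 0)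
    have k1 := key hn hp has h hI hK (Y994.KW.Ext141.Thr.shift hp z hT) hz1 hz2
    have k2 := key hn hp le_rfl h (h0 s) hL (Y994.KW.Ext141.Thr.shift hp w hT) hw1 hw2
    rw [abs_le] at k1 k2 ⊢
    constructor <;> linarith [k1.1, k1.2, k2.1, k2.2]

end Pool.Agent.Helper21.QA
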