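import Pool.Agent.Helper21.QA.Quasi

/-!
# Barriers
-/

namespace Pool.Agent.Helper21.QA

open Y994.KW Pool.Agent.Y290.KW

section
variable {n : ℕ} {a b : ℤ} {σ : Cfg} {K : ℕ} {X : ℤ} {W : ℕ} {H : Pt → ℤ}

/-- the height is constant to the left of a strand -/
theorem HF.left (h : HF n a b σ (orb n a σ) K W H) {T : ℕ → St} {m : ℕ}
    (hk : ∀ i ≤ m, Kd (T i)) (hs : ∀ i < m, T (i + 1) = nxt σ (T i))
    (hb : ∀ i ≤ m, -((2 * n + 1) * (W : ℤ)) ≤ (T i).1.1 ∧ (T i).1.1 ≤ (2 * n + 1) * W ∧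
      a ≤ (T i).1.2 ∧ (T i).1.2 ≤ b) : ∀ i ≤ m, H (T i).1 = H (T 0).1 := by
  intro i
  induction i with
  | zero => intro _; rfl
  | succ i ih =>
    intro hi
    rw [← ih (by omega)]
    have e := left_nxt σ (hk i (by omega))
    rw [← hs i (by omega)] at e
    rcases e with e | e
    · rw [e]
    · obtain ⟨a1, a2, a3, a4⟩ := hb i (by omega)
      obtain ⟨b1, b2, b3, b4⟩ := hb (i + 1) hi
      exact (h.op _ _ a1 a2 a3 a4 b1 b2 b3 b4 e).symm

/-- the height is constant to the left of the translates of the interface -/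
theorem HF.tr (h : HF n a b σ (orb n a σ) K W H) (hn : 1 ≤ n) (hp : Per n σ) (hab : a < b)
    (hK : Hit n a b σ K X) (k : ℤ) {m : ℕ} (hm : m ≤ K)
    (hb : ∀ i ≤ m, -((2 * n + 1) * (W : ℤ)) + 2 ≤ (orb n a σ i).1.1 + (2 * n + 1) * k ∧
      (orb n a σ i).1.1 + (2 * n + 1) * k + 2 ≤ (2 * n + 1) * W) :
    ∀ i ≤ m, H ((orb n a σ i).1 + ((2 * n + 1) * k, 0)) =
      H ((orb n a σ 0).1 + ((2 * n + 1) * k, 0)) := by
  intro i
  induction i with
  | zero => intro _; rfl
  | succ i ih =>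
    intro hi
    rw [← ih (by omega)]
    obtain ⟨a1, a2⟩ := hb i (by omega)
    obtain ⟨b1, b2⟩ := hb (i + 1) hi
    obtain ⟨a3, a4, -, -⟩ := orb_bd hab.le hK (i := i) (by omega)
    obtain ⟨b3, b4, -, -⟩ := orb_bd hab.le hK (i := i + 1) (by omega)
    by_cases hc : ∃ q, orb n a σ i = dn q a
    · obtain ⟨q, hq⟩ := hc
      have hpar := no_dn hn hp i hq
      rw [orb_succ, hq, Pool.Agent.Y932.KW.wk_dn]
      have hN : (0 : ℤ) < 2 * n + 1 := by positivity
      have hr0 := Int.emod_nonneg q hN.ne'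
      have hr1 := Int.emod_lt_of_pos q hN
      have hq2 := Int.emod_add_mul_ediv q (2 * n + 1)
      split_ifs with hpr
      · simp only [up, dn]
      · obtain ⟨l, hl⟩ : ∃ l : ℕ, q % (2 * n + 1) = 2 * l + 1 :=
          ⟨((q % (2 * n + 1)) / 2).toNat, by omega⟩
        have e := pair_fl hn hp hab hK (i := l) (z := q / (2 * n + 1) + k) (by positivity) (by omega)
        have hq1 : q - 1 + (2 * n + 1) * k = 2 * l + (2 * n + 1) * (q / (2 * n + 1) + k) := by
          rw [mul_add]; omega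
        rw [← hq1] at e
        rw [hq] at a1 a2
        simp only [dn] at a1 a2
        have e1 := h.hor (q - 1 + (2 * n + 1) * k) a (by omega) (by omega) le_rfl hab.le
        have e2 := h.hor (q - 1 + (2 * n + 1) * k + 1) a (by omega) (by omega) le_rfl hab.le
        simp only [up, dn, Prod.mk_add_mk, add_zero]
        have e3 : q + 1 + (2 * (n : ℤ) + 1) * k = q - 1 + (2 * n + 1) * k + 1 + 1 := by ring
        rw [e3]
        linarith
    · push Not at hc
      have e := left_nxt σ (kd_orb n a σ i)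
      rw [← wk_nxt n a σ hc, ← orb_succ] at e
      rcases e with e | e
      · rw [e]
      · refine (h.op _ _ ?_ ?_ ?_ ?_ ?_ ?_ ?_ ?_ (op_sh hp k e)).symm
        all_goals simp only [Prod.fst_add, Prod.snd_add, add_zero]
        all_goals omega

/-- a difference of the heights gives a visited edge -/
theorem HF.vis (h : HF n a b σ (orb n a σ) K W H) {x y t : ℤ} (h1 : a ≤ t) (h2 : t ≤ b)
    (hx : -((2 * n + 1) * (W : ℤ)) ≤ x) (hxy : x ≤ y) : y ≤ (2 * n + 1) * W →
    H (x, t) ≠ H (y, t) →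
    ∃ e, x ≤ e ∧ e < y ∧ ∃ i, orb n a σ i = up e t ∨ orb n a σ i = dn e t := by
  induction y, hxy using Int.le_induction with
  | base => intro _ h3; exact absurd rfl h3
  | succ y hy ih =>
    intro h3 h4
    by_cases h5 : H (x, t) = H (y, t)
    · have e1 := h.hor y t (by omega) h3 h1 h2
      have h6 : fl (orb n a σ) K (y, t) (y + 1, t) ≠ 0 := by
        intro h7
        apply h4
        rw [h5]
        omega
      by_contra hc
      apply h6
      apply fl_zero
      intro i _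
      constructor
      · intro h7
        exact hc ⟨y, hy, by omega, i, Or.inl h7⟩
      · intro h7
        exact hc ⟨y, hy, by omega, i, Or.inr h7⟩
    · obtain ⟨e, e1, e2, e3⟩ := ih (by omega) h5
      exact ⟨e, e1, by omega, e3⟩

end

/-- visited edges of one level are different modulo the period -/
theorem vis_inj {n : ℕ} {a : ℤ} {σ : Cfg} (hn : 1 ≤ n) (hp : Per n σ) {t e z : ℤ}
    (h1 : ∃ i, orb n a σ i = up e t ∨ orb n a σ i = dn e t)
    (h2 : ∃ i, orb n a σ i = up (e + (2 * n + 1) * z) t ∨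
      orb n a σ i = dn (e + (2 * n + 1) * z) t) : z = 0 := by
  by_contra hz
  have hI := Pool.Agent.Y932.KW.t_INJ n a σ hn hp
  obtain ⟨i, hi⟩ := h1
  obtain ⟨k, hk⟩ := h2
  have hne : ∀ x y : ℤ, x + (2 * n + 1) * z ≠ x := by
    intro x _ h
    have h3 : (2 * (n : ℤ) + 1) * z = 0 := by omega
    rcases mul_eq_zero.1 h3 with h4 | h4
    · omega
    · exact hz h4
  rcases hi with hi | hi <;> rcases hk with hk | hk
  · have hik : i ≠ k := by
      rintro rfl
      rw [hi] at hk
      simp only [up, Prod.mk.injEq] at hk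
      exact hne e e hk.1.1.symm
    apply (hI i k z).1 hik
    rw [hk, hi, sh_up]
  · apply (hI i k z).2
    rw [hk, hi, rev_up, sh_dn]
  · apply (hI i k z).2
    rw [hk, hi, rev_dn, sh_up]
  · have hik : i ≠ k := by
      rintro rfl
      rw [hi] at hk
      simp only [dn, Prod.mk.injEq] at hk
      exact hne e e hk.2.1.symm
    apply (hI i k z).1 hik
    rw [hk, hi, sh_dn]

/-- pigeonhole -/
theorem pig {n : ℕ} {a : ℤ} {σ : Cfg} (hn : 1 ≤ n) (hp : Per n σ) {t f : ℤ} {k0 : ℤ} {L : ℕ}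
    (h : ∀ j : ℕ, j < L → ∃ e, f + (2 * n + 1) * (k0 + j) ≤ e ∧ e < f + (2 * n + 1) * (k0 + j + 1) ∧
      ∃ i, orb n a σ i = up e t ∨ orb n a σ i = dn e t) : L ≤ 2 * n + 1 := by
  by_contra hL
  push Not at hL
  choose! e h1 h2 h3 using h
  have hmap : ∀ j ∈ Finset.range L,
      e j - (2 * n + 1) * (k0 + j) ∈ Finset.Ico f (f + (2 * n + 1)) := by
    intro j hj
    rw [Finset.mem_range] at hj
    rw [Finset.mem_Ico]
    have a1 := h1 j hj
    have a2 := h2 j hj
    constructor
    · omega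
    · have : (2 * (n : ℤ) + 1) * (k0 + j + 1) = (2 * n + 1) * (k0 + j) + (2 * n + 1) := by ring
      omega
  obtain ⟨i, hi, j, hj, hij, he⟩ := Finset.exists_ne_map_eq_of_card_lt_of_maps_to
    (s := Finset.range L) (t := Finset.Ico f (f + (2 * n + 1)))
    (by rw [Finset.card_range, Int.card_Ico]; omega) hmap
  rw [Finset.mem_range] at hi hj
  have e1 : e j = e i + (2 * n + 1) * ((j : ℤ) - i) := by
    have : (2 * (n : ℤ) + 1) * ((j : ℤ) - i) = (2 * n + 1) * (k0 + j) - (2 * n + 1) * (k0 + i) := by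
      ring
    omega
  have h4 := h3 j hj
  rw [e1] at h4
  have := vis_inj hn hp (h3 i hi) h4
  apply hij
  omega

end Pool.Agent.Helper21.QA
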