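import Pool.Graph.R_seed8.Y290.KW.B
import Pool.Graph.R_seed8.Y781.KW.Trav1
import Pool.Graph.R_seed8.Y932.KW.Walk
import Pool.Graph.R_seed8.Y141.KW.Ext
import Pool.Graph.R_seed8.Y665.KW.Flow

/-!
# The height function of the interface
-/

namespace Pool.Agent.Helper21.QA

open Y994.KW Pool.Agent.Y290.KW

theorem bd (f : ℕ → ℤ) (K : ℕ) : ∃ Z : ℤ, 0 ≤ Z ∧ ∀ i ≤ K, |f i| ≤ Z :=
  ⟨∑ i ∈ Finset.range (K + 1), |f i|, Finset.sum_nonneg fun _ _ => abs_nonneg _, fun i hi =>
    Finset.single_le_sum (f := fun i => |f i|) (fun _ _ => abs_nonneg _)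
      (Finset.mem_range.2 (by omega))⟩

theorem fl_zero {P : ℕ → St} {K : ℕ} {x y : Pt} (h : ∀ i ≤ K, P i ≠ (x, y) ∧ P i ≠ (y, x)) :
    fl P K x y = 0 := by
  unfold fl
  rw [Finset.filter_false_of_mem, Finset.filter_false_of_mem]
  · simp
  · intro i hi
    exact (h i (by rw [Finset.mem_range] at hi; omega)).2
  · intro i hi
    exact (h i (by rw [Finset.mem_range] at hi; omega)).1

theorem fl_one {P : ℕ → St} {K j : ℕ} {x y : Pt} (hj : j ≤ K) (h1 : P j = (x, y))
    (h2 : ∀ i ≤ K, i ≠ j → P i ≠ (x, y)) (h3 : ∀ i ≤ K, P i ≠ (y, x)) : fl P K x y = 1 := by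
  unfold fl
  have e1 : (Finset.range (K + 1)).filter (fun i => P i = (x, y)) = {j} := by
    ext i
    simp only [Finset.mem_filter, Finset.mem_range, Finset.mem_singleton]
    constructor
    · rintro ⟨h4, h5⟩
      by_contra h6
      exact h2 i (by omega) h6 h5
    · rintro rfl
      exact ⟨by omega, h1⟩
  have e2 : (Finset.range (K + 1)).filter (fun i => P i = (y, x)) = ∅ := by
    apply Finset.filter_false_of_mem
    intro i hi
    exact h3 i (by rw [Finset.mem_range] at hi; omega)
  rw [e1, e2]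
  simp

/-- the left corner stays or moves along an open diagonal -/
theorem left_nxt (σ : Cfg) {s : St} (h : Kd s) :
    (nxt σ s).1 = s.1 ∨ Op σ s.1 (nxt σ s).1 := by
  cases h with
  | up q t =>
    rw [nxt_up]
    split_ifs with h1
    · right; left
      exact ⟨by simp [up, rt], by simpa [up, rt] using h1⟩
    · left; rfl
  | dn q t =>
    rw [nxt_dn]
    split_ifs with h1
    · right; right; left
      refine ⟨by simp [dn, lf], ?_⟩
      simpa [dn, lf] using h1
    · left; simp [dn, rt]
  | rt q t =>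
    rw [nxt_rt]
    split_ifs with h1
    · right; right; right; right
      refine ⟨by simp [dn, rt], ?_⟩
      simpa [dn, rt] using h1
    · left; simp [up, rt]
  | lf q t =>
    rw [nxt_lf]
    split_ifs with h1
    · right; right; right; left
      refine ⟨by simp [up, lf]; ring, ?_⟩
      simpa [up, lf] using h1
    · left; simp [dn, lf]

theorem op_sh {n : ℕ} {σ : Cfg} (hp : Per n σ) (z : ℤ) {x y : Pt} (h : Op σ x y) :
    Op σ (x + ((2 * n + 1) * z, 0)) (y + ((2 * n + 1) * z, 0)) := by
  obtain ⟨x1, x2⟩ := x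
  obtain ⟨y1, y2⟩ := y
  unfold Op at h ⊢
  simp only [Prod.mk_add_mk, Prod.mk.injEq, add_zero] at h ⊢
  rcases h with ⟨h1, h2⟩ | ⟨h1, h2⟩ | ⟨h1, h2⟩ | ⟨h1, h2⟩
  · left
    refine ⟨by omega, ?_⟩
    rw [per_z hp]; exact h2
  · right; left
    refine ⟨by omega, ?_⟩
    rw [per_z hp]; exact h2
  · right; right; left
    refine ⟨by omega, ?_⟩
    rw [per_z hp]; exact h2
  · right; right; right
    refine ⟨by omega, ?_⟩
    rw [per_z hp]; exact h2

theorem res {n : ℕ} {r : ℤ} (w : ℤ) (h0 : 0 ≤ r) (h1 : r < 2 * n + 1) :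
    (r + (2 * n + 1) * w) % (2 * n + 1) = r := by
  rw [Int.add_mul_emod_self_left]
  exact Int.emod_eq_of_lt h0 h1

section path
variable {n : ℕ} {a b : ℤ} {σ : Cfg} {K : ℕ} {X : ℤ}

/-- the unpaired edges of the bottom are not visited -/
theorem no_dn (hn : 1 ≤ n) (hp : Per n σ) (i : ℕ) {q : ℤ} (h : orb n a σ i = dn q a) :
    q % (2 * n + 1) ≠ 2 * n := by
  intro h1
  apply (Pool.Agent.Y932.KW.t_INJ n a σ hn hp 0 i (q / (2 * n + 1))).2
  rw [orb_zero, rev_up, sh_dn, h]
  congr 1
  have := Int.emod_add_mul_ediv q (2 * n + 1)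
  omega

/-- arrival at the bottom -/
theorem arr_bot (i : ℕ) {q : ℤ} (h : orb n a σ (i + 1) = up q a) :
    ∃ q', orb n a σ i = dn q' a := by
  by_contra hc
  push Not at hc
  rw [orb_succ, wk_nxt n a σ hc] at h
  have h1 : lv (nxt σ (orb n a σ i)) = 2 * a := by rw [h, lv_up]
  have h2 := lv_nxt σ (kd_orb n a σ i)
  have h3 := (Pool.Agent.Y932.KW.orb_V n a σ i).2
  have h4 : 2 * a ≤ lv (orb n a σ i) := by
    unfold lv
    omega
  obtain ⟨q2, h5⟩ := arr_dn σ (kd_orb n a σ i) h1 (by omega)
  rw [h] at h5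
  simp only [up, dn, Prod.mk.injEq] at h5
  omega

open Y665.KW in
/-- two paired edges of the bottom -/
theorem pair_fl (hn : 1 ≤ n) (hp : Per n σ) (hab : a < b) (hK : Hit n a b σ K X) {i z : ℤ}
    (hi : 0 ≤ i) (hi2 : i < n) :
    fl (orb n a σ) K (2 * i + (2 * n + 1) * z, a) (2 * i + (2 * n + 1) * z + 1, a) +
      fl (orb n a σ) K (2 * i + (2 * n + 1) * z + 1, a) (2 * i + (2 * n + 1) * z + 1 + 1, a) = 0 := by
  set m : ℤ := 2 * i + (2 * n + 1) * z with hm
  have hN : (0 : ℤ) < 2 * n + 1 := by positivity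
  have em : m % (2 * n + 1) = 2 * i := res z (by omega) (by omega)
  have em1 : (m + 1) % (2 * n + 1) = 2 * i + 1 := by
    rw [hm, show 2 * i + (2 * (n : ℤ) + 1) * z + 1 = (2 * i + 1) + (2 * n + 1) * z by ring]
    exact res z (by omega) (by omega)
  have em2 : (m + 1 + 1) % (2 * n + 1) = 2 * i + 2 := by
    rw [hm, show 2 * i + (2 * (n : ℤ) + 1) * z + 1 + 1 = (2 * i + 2) + (2 * n + 1) * z by ring]
    exact res z (by omega) (by omega)
  have em0 : (m - 1) % (2 * n + 1) = 2 * i - 1 ∨ (m - 1) % (2 * n + 1) = 2 * n := by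
    rcases hi.lt_or_eq with h | h
    · left
      rw [hm, show 2 * i + (2 * (n : ℤ) + 1) * z - 1 = (2 * i - 1) + (2 * n + 1) * z by ring]
      exact res z (by omega) (by omega)
    · right
      rw [hm, ← h, show 2 * 0 + (2 * (n : ℤ) + 1) * z - 1 = (2 * n) + (2 * n + 1) * (z - 1) by ring]
      exact res (z - 1) (by omega) (by omega)
  rw [fl_eq, fl_eq, ← Finset.sum_add_distrib]
  rw [← tele (orb n a σ) K (fun s => -(ind s (dn m a) + ind s (dn (m + 1) a)))
    (fun s => -(ind s (up m a) + ind s (up (m + 1) a)))]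
  · refine Finset.sum_congr rfl fun j _ => ?_
    simp only [up, dn]
    ring
  · intro j hj
    by_cases hc : ∃ q', orb n a σ j = dn q' a
    · obtain ⟨q, hq⟩ := hc
      have h1 := no_dn hn hp j hq
      rw [orb_succ, hq, Pool.Agent.Y932.KW.wk_dn]
      have i1 : ∀ x y : ℤ, ind (dn x a) (dn y a) = if x = y then 1 else 0 := by
        intro x y
        unfold ind dn
        simp only [Prod.mk.injEq, and_true, add_left_inj, and_self]
      have i2 : ∀ x y : ℤ, ind (up x a) (up y a) = if x = y then 1 else 0 := by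
        intro x y
        unfold ind up
        simp only [Prod.mk.injEq, and_true, add_left_inj, and_self]
      rw [i1, i1]
      have c1 : q = m → (q % (2 * n + 1)) % 2 = 0 := by
        rintro rfl
        rw [em]; omega
      have c2 : q = m + 1 → (q % (2 * n + 1)) % 2 = 1 := by
        rintro rfl
        rw [em1]; omega
      have c3 : q = m + 1 + 1 → (q % (2 * n + 1)) % 2 = 0 := by
        rintro rfl
        rw [em2]; omega
      have c4 : q = m - 1 → (q % (2 * n + 1)) % 2 = 1 := by
        rintro rfl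
        rcases em0 with h | h
        · rw [h]; omega
        · exact absurd h h1
      by_cases hpar : (q % (2 * n + 1)) % 2 = 0
      · rw [if_pos hpar, i2, i2]
        have d1 : q ≠ m + 1 := fun h => by have := c2 h; omega
        have d2 : q ≠ m - 1 := fun h => by have := c4 h; omega
        rw [if_neg d1, if_neg (show q + 1 ≠ m by omega)]
        by_cases h3 : q = m
        · rw [if_pos h3, if_pos (show q + 1 = m + 1 by omega)]; ring
        · rw [if_neg h3, if_neg (show q + 1 ≠ m + 1 by omega)]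
      · rw [if_neg hpar, i2, i2]
        have d1 : q ≠ m := fun h => by have := c1 h; omega
        have d2 : q ≠ m + 1 + 1 := fun h => by have := c3 h; omega
        rw [if_neg d1, if_neg (show q - 1 ≠ m + 1 by omega)]
        by_cases h3 : q = m + 1
        · rw [if_pos h3, if_pos (show q - 1 = m by omega)]; ring
        · rw [if_neg h3, if_neg (show q - 1 ≠ m by omega)]
    · have h1 : ∀ q, ind (orb n a σ j) (dn q a) = 0 := by
        intro q
        unfold ind
        rw [if_neg fun h => hc ⟨q, h⟩]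
      have h2 : ∀ q, ind (orb n a σ (j + 1)) (up q a) = 0 := by
        intro q
        unfold ind
        rw [if_neg fun h => hc (arr_bot j h)]
      rw [h1, h1, h2, h2]
  · have h1 : ∀ q, ind (orb n a σ K) (dn q a) = 0 := by
      intro q
      unfold ind
      rw [if_neg]
      rw [hK.1]
      intro h
      simp only [up, dn, Prod.mk.injEq] at h
      omega
    rw [h1, h1]; rfl
  · have h1 : ∀ q : ℤ, q % (2 * n + 1) ≠ 2 * n → ind (orb n a σ 0) (up q a) = 0 := by
      intro q hq
      unfold ind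
      rw [if_neg]
      rw [orb_zero]
      intro h
      simp only [up, Prod.mk.injEq] at h
      apply hq
      rw [← h.1.1]
      exact Int.emod_eq_of_lt (by positivity) (by omega)
    rw [h1 m (by rw [em]; omega), h1 (m + 1) (by rw [em1]; omega)]; rfl

/-- the flow through the unpaired edges of the bottom -/
theorem fl_un (hn : 1 ≤ n) (hp : Per n σ) (z : ℤ) :
    fl (orb n a σ) K (2 * n + (2 * n + 1) * z, a) (2 * n + (2 * n + 1) * z + 1, a) =
      if z = 0 then 1 else 0 := by
  have hI := Pool.Agent.Y932.KW.t_INJ n a σ hn hp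
  have hN : (0 : ℤ) < 2 * n + 1 := by positivity
  have h0 : ∀ i, orb n a σ i ≠ ((2 * n + (2 * n + 1) * z + 1, a), (2 * n + (2 * n + 1) * z, a)) := by
    intro i h
    apply (hI 0 i z).2
    rw [h, orb_zero, rev_up, sh_dn]
    rfl
  split_ifs with hz
  · subst hz
    apply fl_one (Nat.zero_le K)
    · rw [orb_zero]; simp [up]
    · intro i _ hi h
      apply (hI 0 i 0).1 (Ne.symm hi)
      rw [h, orb_zero, sh_up]; rfl
    · intro i _
      exact h0 i
  · apply fl_zero
    intro i _
    refine ⟨fun h => ?_, h0 i⟩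
    rcases Nat.eq_zero_or_pos i with hi | hi
    · subst hi
      rw [orb_zero] at h
      simp only [up, Prod.mk.injEq] at h
      have h3 : (2 * (n : ℤ) + 1) * z = 0 := by linarith [h.1.1]
      rcases mul_eq_zero.1 h3 with h4 | h4
      · omega
      · exact hz h4
    · apply (hI 0 i z).1 (by omega)
      rw [h, orb_zero, sh_up]; rfl

/-- the flow through the edges of the top -/
theorem fl_top (hab : a ≤ b) (hK : Hit n a b σ K X) (x : ℤ) :
    fl (orb n a σ) K (x, b) (x + 1, b) = if x = 2 * n + X then 1 else 0 := by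
  have hlt := lt_hit hab hK
  have h1 : ∀ i < K, ∀ x, orb n a σ i ≠ up x b ∧ orb n a σ i ≠ dn x b := by
    intro i hi x
    have := hlt i hi
    constructor
    · intro h
      rw [h, lv_up] at this
      omega
    · intro h
      rw [h, lv_dn] at this
      omega
  have h2 : ∀ y, orb n a σ K ≠ dn y b := by
    intro y h
    rw [hK.1] at h
    simp only [up, dn, Prod.mk.injEq] at h
    omega
  split_ifs with hx
  · apply fl_one le_rfl
    · rw [hK.1, hx]; rfl
    · intro i hi hi2
      exact (h1 i (by omega) x).1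
    · intro i hi
      rcases hi.lt_or_eq with h | h
      · exact (h1 i h x).2
      · rw [h]; exact h2 x
  · apply fl_zero
    intro i hi
    rcases hi.lt_or_eq with h | h
    · exact ⟨(h1 i h x).1, (h1 i h x).2⟩
    · rw [h]
      refine ⟨fun h3 => ?_, h2 x⟩
      rw [hK.1] at h3
      simp only [up, Prod.mk.injEq] at h3
      exact hx h3.1.1.symm

end path

end Pool.Agent.Helper21.QA
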