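import Pool.Agent.Helper21.QA.Height

/-!
# The displacement is additive up to `2 N² + 4 N`
-/

namespace Pool.Agent.Helper21.QA

open Y994.KW Pool.Agent.Y290.KW

/-- a height function on the box `[-N W, N W] × [a, b]` -/
structure HF (n : ℕ) (a b : ℤ) (σ : Cfg) (P : ℕ → St) (K W : ℕ) (H : Pt → ℤ) : Prop where
  hor : ∀ x t : ℤ, -((2 * n + 1) * W) ≤ x → x + 1 ≤ (2 * n + 1) * W → a ≤ t → t ≤ b →
    H (x + 1, t) - H (x, t) = fl P K (x, t) (x + 1, t)
  op : ∀ x y : Pt, -((2 * n + 1) * (W : ℤ)) ≤ x.1 → x.1 ≤ (2 * n + 1) * W → a ≤ x.2 → x.2 ≤ b →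
    -((2 * n + 1) * (W : ℤ)) ≤ y.1 → y.1 ≤ (2 * n + 1) * W → a ≤ y.2 → y.2 ≤ b →
    Op σ x y → H x = H y
  za : H (-((2 * n + 1) * (W : ℤ)), a) = 0
  zb : H (-((2 * n + 1) * (W : ℤ)), b) = 0

section
variable {n : ℕ} {a b : ℤ} {σ : Cfg} {K : ℕ} {X : ℤ}

theorem orb_bd (hab : a ≤ b) (hK : Hit n a b σ K X) {i : ℕ} (hi : i ≤ K) :
    a ≤ (orb n a σ i).1.2 ∧ (orb n a σ i).1.2 ≤ b ∧ a ≤ (orb n a σ i).2.2 ∧
      (orb n a σ i).2.2 ≤ b := by
  obtain ⟨-, h1, h2⟩ := Pool.Agent.Y932.KW.orb_V n a σ i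
  have h3 : lv (orb n a σ i) ≤ 2 * b := by
    rcases hi.lt_or_eq with h | h
    · exact (lt_hit hab hK i h).le
    · rw [h, hK.1, lv_up]
  have hk := kd_orb n a σ i
  unfold lv at h3
  revert h1 h2 h3
  generalize orb n a σ i = s at hk ⊢
  intro h1 h2 h3
  cases hk with
  | up q t => simp only [up] at h1 h2 h3 ⊢; omega
  | dn q t => simp only [dn] at h1 h2 h3 ⊢; omega
  | rt q t => simp only [rt] at h1 h2 h3 ⊢; omega
  | lf q t => simp only [lf] at h1 h2 h3 ⊢; omega

theorem exists_HF (hab : a < b) (hK : Hit n a b σ K X) (W : ℕ)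
    (hW : ∀ i ≤ K, -((2 * n + 1) * (W : ℤ)) < (orb n a σ i).1.1) :
    ∃ H, HF n a b σ (orb n a σ) K W H := by
  have hcap : ∀ i < K, (∃ q, orb n a σ i = dn q a) ∨ orb n a σ (i + 1) = nxt σ (orb n a σ i) := by
    intro i _
    by_cases h : ∃ q, orb n a σ i = dn q a
    · exact Or.inl h
    · push Not at h
      right
      rw [orb_succ, wk_nxt n a σ h]
  have htd : ∀ q : ℤ, ∀ x0 x1 : ℤ, tl (dn q a) ∉ TR x0 x1 a b := by
    intro q x0 x1 h
    have h1 : tl (dn q a) = (q, a - 1) := Pool.Agent.Y781.KW.tl_dn q a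
    rw [h1] at h
    have := h.2.2.1
    simp only at this
    omega
  obtain ⟨H, h0, h1, h2⟩ := Y665.KW.t_FLOW (-((2 * n + 1) * (W : ℤ))) ((2 * n + 1) * W) a b
    (orb n a σ) K (by
      have : (0 : ℤ) ≤ (2 * n + 1) * W := by positivity
      omega) hab.le (fun i _ => ok_of_kd (kd_orb n a σ i))
    (by
      intro i hi
      rcases hcap i hi with ⟨q, hq⟩ | h
      · right
        obtain ⟨q', hq'⟩ := Pool.Agent.Y290.KW.wk_dn n a σ q
        rw [orb_succ, hq, hq', rev_up]
        exact ⟨htd _ _ _, htd _ _ _⟩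
      · left
        rw [h]
        exact Pool.Agent.Y781.KW.stp_nxt σ _)
    (by
      rw [hK.1, Pool.Agent.Y781.KW.tl_up]
      intro h
      have := h.2.2.2
      simp only at this
      omega)
    (by
      rw [orb_zero, rev_up]
      exact htd _ _ _)
  have hor : ∀ x t : ℤ, -((2 * n + 1) * W) ≤ x → x + 1 ≤ (2 * n + 1) * W → a ≤ t → t ≤ b →
      H (x + 1, t) - H (x, t) = fl (orb n a σ) K (x, t) (x + 1, t) := by
    intro x t e1 e2 e3 e4
    exact h1 (x, t) ⟨e1, by simp only; omega, e3, e4⟩ (x + 1, t)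
      ⟨by simp only; omega, e2, e3, e4⟩ ⟨x, t, Or.inl rfl⟩
  refine ⟨H, hor, ?_, h0, ?_⟩
  · intro x y e1 e2 e3 e4 e5 e6 e7 e8 hxy
    refine h2 σ ?_ x ⟨e1, e2, e3, e4⟩ y ⟨e5, e6, e7, e8⟩ hxy
    intro i hi ht
    rcases hcap i hi with ⟨q, hq⟩ | h
    · rw [hq] at ht
      exact absurd ht (htd _ _ _)
    · exact h
  · have h3 : ∀ t : ℤ, a ≤ t → t ≤ b → H (-((2 * n + 1) * (W : ℤ)), t) = 0 := by
      intro t ht
      induction t, ht using Int.le_induction with
      | base => intro _; exact h0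
      | succ t ht ih =>
        intro htb
        have hW0 : (0 : ℤ) ≤ (2 * n + 1) * W := by positivity
        have h4 := h1 (-((2 * n + 1) * (W : ℤ)), t) ⟨le_refl _, by simp only; omega, ht, by simp only; omega⟩
          (-((2 * n + 1) * (W : ℤ)), t + 1) ⟨le_refl _, by simp only; omega, by simp only; omega, htb⟩
          ⟨_, t, Or.inr (Or.inr (Or.inl rfl))⟩
        rw [fl_zero, ih (by omega)] at h4
        · linarith
        · intro i hi
          have := hW i hi
          constructor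
          · intro h
            rw [h] at this
            exact lt_irrefl _ this
          · intro h
            rw [h] at this
            exact lt_irrefl _ this
    exact h3 b hab.le le_rfl

variable {W : ℕ} {H : Pt → ℤ}

/-- the height on the bottom -/
theorem HF.bot (h : HF n a b σ (orb n a σ) K W H) (hn : 1 ≤ n) (hp : Per n σ) (hab : a < b)
    (hK : Hit n a b σ K X) (j : ℕ) : j + 1 ≤ 2 * W → ∀ i : ℕ, i ≤ n →
    H (2 * i + (2 * n + 1) * (j - W), a) = if (j : ℤ) - W ≤ 0 then 0 else 1 := by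
  have step : ∀ j : ℕ, j + 1 ≤ 2 * W → ∀ i : ℕ, i ≤ n →
      H (2 * i + (2 * n + 1) * (j - W), a) = H (0 + (2 * n + 1) * (j - W), a) := by
    intro j hj i
    have hjW : (2 * (n : ℤ) + 1) * (j + 1) ≤ (2 * n + 1) * (2 * W) := by
      apply mul_le_mul_of_nonneg_left _ (by positivity)
      exact_mod_cast hj
    have hj0 : (0 : ℤ) ≤ (2 * n + 1) * j := by positivity
    induction i with
    | zero => intro _; norm_num
    | succ i ih =>
      intro hi
      have e := pair_fl hn hp hab hK (i := i) (z := (j : ℤ) - W) (by positivity)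
        (by exact_mod_cast hi)
      have e1 := h.hor (2 * i + (2 * n + 1) * (j - W)) a (by nlinarith) (by nlinarith) le_rfl hab.le
      have e2 := h.hor (2 * i + (2 * n + 1) * (j - W) + 1) a (by nlinarith) (by nlinarith) le_rfl
        hab.le
      rw [← ih (by omega)]
      have e3 : (2 * ((i + 1 : ℕ) : ℤ) + (2 * n + 1) * (j - W)) =
        2 * i + (2 * n + 1) * (j - W) + 1 + 1 := by push_cast; ring
      rw [e3]
      linarith
  induction j with
  | zero =>
    intro hj i hi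
    rw [step 0 hj i hi, if_pos (by push_cast; omega)]
    have e : (0 : ℤ) + (2 * n + 1) * (((0 : ℕ) : ℤ) - W) = -((2 * n + 1) * W) := by
      push_cast; ring
    rw [e]
    exact h.za
  | succ j ih =>
    intro hj i hi
    rw [step (j + 1) hj i hi]
    have h1 := ih (by omega) n le_rfl
    have hjW : (2 * (n : ℤ) + 1) * (j + 1 + 1) ≤ (2 * n + 1) * (2 * W) := by
      apply mul_le_mul_of_nonneg_left _ (by positivity)
      exact_mod_cast hj
    have hj0 : (0 : ℤ) ≤ (2 * n + 1) * j := by positivity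
    have e1 := h.hor (2 * n + (2 * n + 1) * (j - W)) a (by nlinarith) (by nlinarith) le_rfl hab.le
    rw [fl_un hn hp] at e1
    have e2 : (0 : ℤ) + (2 * n + 1) * (((j + 1 : ℕ) : ℤ) - W) = 2 * n + (2 * n + 1) * (j - W) + 1 := by
      push_cast; ring
    rw [e2]
    have e3 : H (2 * n + (2 * n + 1) * (j - W) + 1, a) =
      (if (j : ℤ) - W ≤ 0 then 0 else 1) + if (j : ℤ) - W = 0 then 1 else 0 := by
      rw [← h1, ← e1]; ring
    rw [e3]
    push_cast
    split_ifs <;> first | rfl | omega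

/-- the height on the top -/
theorem HF.top (h : HF n a b σ (orb n a σ) K W H) (hab : a ≤ b) (hK : Hit n a b σ K X)
    (hX : -((2 * n + 1) * (W : ℤ)) ≤ 2 * n + X) {x : ℤ} (h1 : -((2 * n + 1) * (W : ℤ)) ≤ x) :
    x ≤ (2 * n + 1) * W → H (x, b) = if x ≤ 2 * n + X then 0 else 1 := by
  induction x, h1 using Int.le_induction with
  | base =>
    intro _
    rw [if_pos hX]
    exact h.zb
  | succ x hx ih =>
    intro hx2
    have e1 := h.hor x b hx hx2 hab le_rfl
    rw [fl_top hab hK, ih (by omega)] at e1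
    have e2 : H (x + 1, b) = (if x ≤ 2 * n + X then 0 else 1) + if x = 2 * n + X then 1 else 0 := by
      rw [← e1]; ring
    rw [e2]
    split_ifs <;> first | rfl | omega

end

end Pool.Agent.Helper21.QA
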